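import Pool.Agent.H329R3.NU.Stmts

/-!
# Task Orth of the project H329-NU (almost orthogonality)
-/

set_option autoImplicit false

open MeasureTheory Set Filter Topology

namespace Pool.Agent.H99R3.NU

open Pool.Agent.H329R3.NU

lemma dy_zero_of_notMem {h : ℝ × ℝ → ℝ} {z : ℝ × ℝ} (hz : z ∉ tsupport h) : dy h z = 0 := by
  unfold dy
  rw [fderiv_of_notMem_tsupport ℝ hz]
  rfl

/-- the correction term of the density -/
noncomputable def q (h : ℝ × ℝ → ℝ) (z : ℝ × ℝ) : ℝ := dy h z / z.1 ^ 2

lemma dy_contDiff {h : ℝ × ℝ → ℝ} (hs : ContDiff ℝ 2 h) : ContDiff ℝ 1 (dy h) := by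
  unfold dy
  exact (hs.fderiv_right (m := 1) (by norm_num)).clm_apply contDiff_const

lemma q_contDiff {h : ℝ × ℝ → ℝ} (hs : ContDiff ℝ 2 h) (hsupp : tsupport h ⊆ Om) :
    ContDiff ℝ 1 (q h) := by
  have hdy : ContDiff ℝ 1 (dy h) := dy_contDiff hs
  rw [contDiff_iff_contDiffAt]
  intro z
  by_cases hz : z ∈ tsupport h
  · have h1 : z.1 ≠ 0 := (hsupp hz).1.1.ne'
    have h2 : ContDiffAt ℝ 1 (fun z : ℝ × ℝ => z.1 ^ 2) z := (contDiff_fst.pow 2).contDiffAt
    exact hdy.contDiffAt.div h2 (pow_ne_zero 2 h1)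
  · have h1 : (tsupport h)ᶜ ∈ 𝓝 z := (isClosed_tsupport h).isOpen_compl.mem_nhds hz
    have h2 : q h =ᶠ[𝓝 z] fun _ => 0 := by
      filter_upwards [h1] with y hy
      unfold q
      rw [dy_zero_of_notMem hy, zero_div]
    exact contDiffAt_const.congr_of_eventuallyEq h2

lemma q_supp {h : ℝ × ℝ → ℝ} : tsupport (q h) ⊆ tsupport h := by
  refine closure_minimal ?_ (isClosed_tsupport h)
  intro z hz
  by_contra hc
  apply hz
  unfold q
  rw [dy_zero_of_notMem hc, zero_div]

lemma q_cpt {h : ℝ × ℝ → ℝ} (hc : HasCompactSupport h) : HasCompactSupport (q h) :=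
  IsCompact.of_isClosed_subset hc (isClosed_tsupport _) q_supp

theorem taskOrth : TaskOrth := by
  intro A κ h hh
  have hq1 : ContDiff ℝ 1 (q h) := q_contDiff hh.smooth hh.supp
  have hqc : HasCompactSupport (q h) := q_cpt hh.cpt
  have hdq : Continuous (fun z => fderiv ℝ (q h) z (1, 0)) :=
    (hq1.continuous_fderiv (by norm_num)).clm_apply continuous_const
  have hdqc : HasCompactSupport (fun z => fderiv ℝ (q h) z (1, 0)) := by
    refine HasCompactSupport.intro hqc (fun z hz => ?_)
    rw [fderiv_of_notMem_tsupport ℝ hz]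
    rfl
  refine ⟨∫ z, |fderiv ℝ (q h) z (1, 0)|, integral_nonneg (fun _ => abs_nonneg _), ?_⟩
  intro h' hh' η hη hb
  -- the difference
  have hg1 : ContDiff ℝ 2 (fun z => h' z - h z) := hh'.smooth.sub hh.smooth
  have hgc : HasCompactSupport (fun z => h' z - h z) := hh'.cpt.sub hh.cpt
  have hdg : ∀ z, fderiv ℝ (fun z => h' z - h z) z (1, 0) = dy h' z - dy h z := by
    intro z
    have h1 : DifferentiableAt ℝ h' z := (hh'.smooth.differentiable (by norm_num)) z
    have h2 : DifferentiableAt ℝ h z := (hh.smooth.differentiable (by norm_num)) z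
    rw [fderiv_fun_sub h1 h2]
    rfl
  -- integrand on Om
  have e1 : ∫ z in Om, (W h' z - W h z) * W h z * z.1 ^ 2 =
      ∫ z in Om, (1 + q h z) * fderiv ℝ (fun z => h' z - h z) z (1, 0) := by
    refine setIntegral_congr_fun (measurableSet_Ioo.prod measurableSet_Ioo) (fun z hz => ?_)
    have hz1 : z.1 ≠ 0 := hz.1.1.ne'
    rw [hdg]
    unfold W q
    field_simp
    ring
  have e2 : ∫ z in Om, (1 + q h z) * fderiv ℝ (fun z => h' z - h z) z (1, 0) =
      ∫ z, (1 + q h z) * fderiv ℝ (fun z => h' z - h z) z (1, 0) := by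
    refine setIntegral_eq_integral_of_forall_compl_eq_zero (fun z hz => ?_)
    rw [hdg, dy_zero_of_notMem (fun hc => hz (hh'.supp hc)),
      dy_zero_of_notMem (fun hc => hz (hh.supp hc))]
    simp
  have hV1 : ContDiff ℝ 1 (fun z => 1 + q h z) := contDiff_const.add hq1
  have hV : Continuous (fun z => 1 + q h z) := hV1.continuous
  have hfV : ∀ z, fderiv ℝ (fun z => 1 + q h z) z (1, 0) = fderiv ℝ (q h) z (1, 0) := by
    intro z
    rw [fderiv_const_add]
  have hgcont : Continuous (fun z => h' z - h z) := hg1.continuous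
  have hdgcont : Continuous (fun z => fderiv ℝ (fun z => h' z - h z) z (1, 0)) :=
    (hg1.continuous_fderiv (by norm_num)).clm_apply continuous_const
  have hdgc : HasCompactSupport (fun z => fderiv ℝ (fun z => h' z - h z) z (1, 0)) := by
    refine HasCompactSupport.intro hgc (fun z hz => ?_)
    rw [fderiv_of_notMem_tsupport ℝ hz]
    rfl
  have e3 : ∫ z, (1 + q h z) * fderiv ℝ (fun z => h' z - h z) z (1, 0) =
      - ∫ z, fderiv ℝ (fun z => 1 + q h z) z (1, 0) * (h' z - h z) := by
    refine integral_mul_fderiv_eq_neg_fderiv_mul_of_integrable ?_ ?_ ?_ ?_ ?_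
    · simp only [hfV]
      exact (hdq.mul hgcont).integrable_of_hasCompactSupport hdqc.mul_right
    · exact (hV.mul hdgcont).integrable_of_hasCompactSupport hdgc.mul_left
    · exact (hV.mul hgcont).integrable_of_hasCompactSupport hgc.mul_left
    · intro z _
      exact (hV1.differentiable (by norm_num)) z
    · intro z _
      exact (hg1.differentiable (by norm_num)) z
  rw [e1, e2, e3, abs_neg]
  simp only [hfV]
  calc |∫ z, fderiv ℝ (q h) z (1, 0) * (h' z - h z)|
      ≤ ∫ z, |fderiv ℝ (q h) z (1, 0)| * η := by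
        rw [← Real.norm_eq_abs]
        refine norm_integral_le_of_norm_le ?_ (Eventually.of_forall fun z => ?_)
        · exact (hdq.abs.integrable_of_hasCompactSupport hdqc.abs).mul_const η
        · rw [Real.norm_eq_abs, abs_mul]
          exact mul_le_mul_of_nonneg_left (hb z) (abs_nonneg _)
    _ = (∫ z, |fderiv ℝ (q h) z (1, 0)|) * η := by
        rw [integral_mul_const]

end Pool.Agent.H99R3.NU
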